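import Pool.Agent.H47.ST.Targets

namespace Pool.Agent.H58.STK

open Finset Pool.Agent.H47.ST

/-- an increasing list has only records -/
theorem nr_sorted (v : List ℕ) : ∀ h : ℕ, v.Pairwise (· < ·) → (∀ x ∈ v, h ≤ x) → nr h v = 0 := by
  induction v with
  | nil =>
    intro h _ _
    rfl
  | cons a v ih =>
    intro h hp hx
    have h1 : h ≤ a := hx a List.mem_cons_self
    rw [List.pairwise_cons] at hp
    have e : nr h (a :: v) = nr (a + 1) v := by
      simp [nr, h1]
    rw [e]
    exact ih (a + 1) hp.2 fun x hx' => hp.1 x hx'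

theorem pf_RB (_ : T_ITE) : T_RB := by
  intro n w r R _ hs hI i hi
  have key : ∀ q, orb (gw w) (R + 1) q = 0 := by
    intro q
    have e : orb (gw w) (R + 1) q = nr 0 ((T^[R] w).drop (orb (gw w) R q)) := rfl
    rw [e, hs]
    refine nr_sorted _ 0 ?_ (fun _ _ => Nat.zero_le _)
    exact List.Pairwise.sublist (List.drop_sublist _ _) (List.pairwise_lt_range)
  have h := (hI (R + 1) i (i + 1) (Nat.le_succ i) hi).1 (by rw [key, key]) i le_rfl
    (Nat.lt_succ_self i)
  omega

end Pool.Agent.H58.STK
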