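import Pool.Agent.H47.ST.Targets

namespace Pool.Agent.H58.STK

open Finset Pool.Agent.H47.ST

/-- a word of length at most `m * m0` is cut into `m` blocks -/
theorem exists_blocks (m0 : ℕ) : ∀ (m : ℕ) (w : List ℕ), w.length ≤ m * m0 →
    ∃ V : List (List ℕ), V.length = m ∧ V.flatten = w ∧ okM m0 V := by
  intro m
  induction m with
  | zero =>
    intro w hw
    rw [Nat.zero_mul, Nat.le_zero, List.length_eq_zero_iff] at hw
    refine ⟨[], rfl, ?_, ?_⟩
    · rw [hw]
      rfl
    · intro B hB
      simp at hB
  | succ m ih =>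
    intro w hw
    rw [Nat.succ_mul] at hw
    obtain ⟨V, h1, h2, h3⟩ := ih (w.drop m0) (by
      rw [List.length_drop]
      omega)
    refine ⟨w.take m0 :: V, ?_, ?_, ?_⟩
    · rw [List.length_cons, h1]
    · rw [List.flatten_cons, h2, List.take_append_drop]
    · intro B hB
      rcases List.mem_cons.1 hB with h | h
      · rw [h, List.length_take]
        exact min_le_left _ _
      · exact h3 B h

theorem pf_TCK (h1 : T_WRD) (h2 : T_CNT) (h3 : T_RCH) : T_TCK := by
  classical
  intro R n m m0 _ hn
  rw [(h1 n R).2]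
  have hfl : (List.replicate m ([] : List ℕ)).flatten = [] := by
    rw [List.flatten_eq_nil_iff]
    intro l hl
    exact List.eq_of_mem_replicate hl
  have hc := h2 R m0 n 0 (List.replicate m []) (List.replicate m []) rfl
    (by rw [hfl, List.range_zero]) (by
      intro k p q hpq hq
      have hq0 : q = 0 := by omega
      have hp0 : p = 0 := by omega
      subst hq0
      subst hp0
      refine ⟨fun _ i _ h => absurd h (Nat.not_lt_zero i), fun _ => rfl⟩)
  refine le_trans ?_ hc
  have hlen : ∀ w : List ℕ, w.Perm (List.range n) → w.length ≤ m * m0 := by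
    intro w hw
    rw [hw.length_eq, List.length_range]
    exact hn
  have hex : ∀ w : List ℕ, ∃ V : List (List ℕ), w.Perm (List.range n) →
      V.length = m ∧ V.flatten = w ∧ okM m0 V := by
    intro w
    by_cases hw : w.Perm (List.range n)
    · obtain ⟨V, hV⟩ := exists_blocks m0 m w (hlen w hw)
      exact ⟨V, fun _ => hV⟩
    · exact ⟨[], fun h => absurd h hw⟩
  choose V hV using hex
  refine Set.ncard_le_ncard_of_injOn V ?_ ?_ ?_
  · rintro w ⟨hw, hs⟩
    obtain ⟨a1, a2, a3⟩ := hV w hw
    refine ⟨?_, ?_, a3⟩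
    · exact h3 n m (V w) a1 (by rw [a2]; exact hw)
    · rw [a2, Nat.zero_add]
      exact hs
  · rintro w ⟨hw, _⟩ w' ⟨hw', _⟩ e
    have b1 := (hV w hw).2.1
    have b2 := (hV w' hw').2.1
    rw [← b1, ← b2, e]
  · refine (Finset.finite_toSet (reach n (List.replicate m []))).subset ?_
    intro V' h
    exact h.1

end Pool.Agent.H58.STK
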