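import Pool.Agent.H47.ST.Targets

namespace Pool.Agent.H58.STK

open Finset Pool.Agent.H47.ST

theorem pf_UNS (h1 : T_ITE) : T_UNS := by
  intro n w p R hw hp hs
  obtain ⟨e1, e2, e3⟩ := h1 n w p R hw hp
  rw [e1] at hs
  obtain ⟨v, hv⟩ : ∃ v, v = T^[R] w := ⟨_, rfl⟩
  obtain ⟨P, hP⟩ : ∃ P, P = orb (gw w) R p := ⟨_, rfl⟩
  rw [← hv, ← hP] at hs
  rw [← hv] at e3 ⊢
  rw [← hP] at e2
  have hlen : v.length = n := by
    rw [e3.length_eq, List.length_range]
  rw [List.range_succ_eq_map] at hs
  unfold step at hs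
  cases P with
  | zero =>
    rw [List.take_zero, List.drop_zero, List.nil_append, List.cons.injEq] at hs
    exact List.map_injective_iff.2 Nat.succ_injective hs.2
  | succ P =>
    cases v with
    | nil =>
      rw [List.length_nil] at hlen
      omega
    | cons a v =>
      rw [List.map_cons, List.take_succ_cons, List.cons_append, List.cons.injEq] at hs
      exact absurd hs.1 (Nat.succ_ne_zero a)

end Pool.Agent.H58.STK
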